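import Pool.Agent.VINO.ETor

/-!
# MP_823c05_an: affine endomorphisms of tori, all bounded measurable functions

Let `0 < c < 1/2` and `G x = x ^ (log x) ^ c = exp ((log x) ^ (1 + c))`. For every integer matrix `A` with
`det A ≠ 0`, every `b` in the torus `𝕋^d` and every bounded measurable `f`, for almost every `x` with respect to
the Haar measure, the sequence `f (T ^ ⌊G n⌋ x)`, `n ≥ 1`, where `T x = A x + b`, has a unique Furstenberg
system, and this is a product measure. (`T` preserves the Haar measure; it need not be ergodic, and it may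
have positive entropy.)
-/

set_option autoImplicit false

namespace Pool.Agent.Results.MP_823c05_an.AffineTorusBounded

open MeasureTheory Pool.Agent.VINO

theorem result (c : ℝ) (hc0 : 0 < c) (hc1 : c < 1 / 2) (d : ℕ)
    (A : Matrix (Fin d) (Fin d) ℤ) (hA : A.det ≠ 0) (b : UnitAddTorus (Fin d))
    (f : UnitAddTorus (Fin d) → ℂ) (hf : Bdd f) :
    ∀ᵐ x ∂(hT d), HasBernoulliFS fun n => f ((TT A b)^[a c n] x) :=
  torus_bdd hc0 hc1 A hA b f hf

end Pool.Agent.Results.MP_823c05_an.AffineTorusBounded
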