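import Pool.Agent.VINO.QFin

/-!
# MP_823c05_an: systems with multiple mixing at a logarithmic rate

Let `0 < c < 1/2` and `G x = x ^ (log x) ^ c = exp ((log x) ^ (1 + c))`. Let `(X, μ, T)` be a probability
preserving system and `V` a set of bounded measurable functions, closed under conjugation, whose linear
span is dense in `L²`, such that for each `m` and all `f_1, …, f_m ∈ V` the correlations
`∫ ∏ f_i (T^(t_i) x) dμ` differ from `∏ ∫ f_i dμ` by at most `C / log g` if the gaps of `t_1 < … < t_m` are at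
least `g ≥ 2` (`C` depends on the `f_i`). Then for every bounded measurable `f`, for `μ`-almost every `x`, the
sequence `f (T ^ ⌊G n⌋ x)`, `n ≥ 1`, has a unique Furstenberg system, and this is a product measure.
-/

set_option autoImplicit false

namespace Pool.Agent.Results.MP_823c05_an.LogMixing

open MeasureTheory Pool.Agent.VINO

theorem result (c : ℝ) (hc0 : 0 < c) (hc1 : c < 1 / 2) (X : Type*) [MeasurableSpace X]
    (μ : Measure X) [IsProbabilityMeasure μ] (T : X → X) (hT : MeasurePreserving T μ μ)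
    (V : Set (X → ℂ)) (hV : ∀ f ∈ V, Bdd f)
    (hconj : ∀ f ∈ V, (fun x => (starRingEnd ℂ) (f x)) ∈ V) (hmix : LogMix μ T V)
    (hd : ∀ f : X → ℂ, Bdd f → ∀ ε : ℝ, 0 < ε →
      ∃ h ∈ Submodule.span ℂ V, ∫ x, ‖f x - h x‖ ^ 2 ∂μ ≤ ε)
    (f : X → ℂ) (hf : Bdd f) : ∀ᵐ x ∂μ, HasBernoulliFS fun n => f (T^[a c n] x) :=
  logmix_main hc0 hc1 μ T hT V hV hconj hmix hd f hf

end Pool.Agent.Results.MP_823c05_an.LogMixing
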