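import Pool.Agent.PJN.Fin

/-!
# MP_823c05_an: systems whose pairwise independent self-joinings are independent

For an ergodic system with the PID property and a bounded measurable function `f` the empirical
measures of the sequences `f (T^(a n) x)`, `a n = ⌊n ^ (log n) ^ c⌋`, converge in probability to a
product measure; so at almost every point this Bernoulli system is a Furstenberg system.
-/

set_option autoImplicit false

namespace Pool.Agent.Results.MP_823c05_an.PairwiseIndependent

open MeasureTheory Filter Topology Pool.Agent.VINO Pool.Agent.PJN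

/-- The averages over `n ≤ N` of the Dirac masses at the points `S^n ω` (`(S ω) i = ω (i + 1)`) tend
weak-* to `ρ^ℤ` along the sequence of values `N = M 0, M 1, M 2, …`. -/
def LimAlong {R : ℝ} (M : ℕ → ℕ) (ω : ℤ → Metric.closedBall (0 : ℂ) R)
    (ρ : Measure (Metric.closedBall (0 : ℂ) R)) : Prop :=
  ∀ F : (ℤ → Metric.closedBall (0 : ℂ) R) → ℂ, Continuous F →
    Tendsto (fun k => av (M k) fun n => F fun i => ω (i + n)) atTop
      (𝓝 (∫ w, F w ∂(Measure.infinitePi fun _ : ℤ => ρ)))

/-- Let `T` be an ergodic measure preserving map of a standard Borel probability space with the PID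
property, `f` measurable with `|f| ≤ R`, and `M` strictly increasing. Then there is a subsequence
`M ∘ κ` such that for almost every `x` the averages of the Dirac masses at `S^n ω_x`, `n ≤ N`, tend
to `ρ^ℤ` along `N = M (κ k)`; here `ω_x n = f (T^(a n) x)` for `n ≥ 1`, `ω_x n = 0` for `n ≤ 0`, and
`ρ` is the law of `f`. -/
theorem result {c : ℝ} (hc0 : 0 < c) (hc1 : c < 1 / 2) {X : Type} [MeasurableSpace X]
    [StandardBorelSpace X] {μ : Measure X} [IsProbabilityMeasure μ] {T : X → X} (hT : Ergodic T μ)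
    (hpid : PID μ T) {R : ℝ} (f : X → ℂ) (hf : Measurable f) (hR : ∀ x, ‖f x‖ ≤ R) (M : ℕ → ℕ)
    (hM : StrictMono M) :
    ∃ κ : ℕ → ℕ, StrictMono κ ∧ ∀ᵐ x ∂μ, ∀ ω : ℤ → Metric.closedBall (0 : ℂ) R,
      (∀ n : ℕ, 1 ≤ n → (ω n : ℂ) = f (T^[a c n] x)) → (∀ n : ℤ, n ≤ 0 → (ω n : ℂ) = 0) →
        LimAlong (M ∘ κ) ω (μ.map fun x => ⟨f x, mem_closedBall_zero_iff.2 (hR x)⟩) := by
  obtain ⟨κ, hκ, h⟩ := main hc0 hc1 hT hpid
    (fun x => (⟨f x, mem_closedBall_zero_iff.2 (hR x)⟩ : Metric.closedBall (0 : ℂ) R))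
    (hf.subtype_mk) M hM
  refine ⟨κ, hκ, ?_⟩
  filter_upwards [h] with x hx ω hω _ F hF
  exact hx ω (fun n hn => Subtype.ext (hω n hn)) F hF

end Pool.Agent.Results.MP_823c05_an.PairwiseIndependent
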